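import Pool.Agent.H20.FT.Targets

/-!
# AN: an inequality for mean values
-/

set_option autoImplicit false

open NumberField Height Finset Pool.Agent.H20.FT

namespace Pool.Agent.H77.FT

theorem exp_eighth : Real.exp (1 / 8) ≤ 1.1375 := by
  have h : Real.exp (1 / 8) ^ 8 ≤ (1.1375 : ℝ) ^ 8 := by
    rw [← Real.exp_nat_mul]
    have e1 : ((8 : ℕ) : ℝ) * (1 / 8) = 1 := by norm_num
    rw [e1]
    have h2 := Real.exp_one_lt_d9
    have h3 : (2.7182818286 : ℝ) ≤ (1.1375 : ℝ) ^ 8 := by norm_num
    linarith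
  exact le_of_pow_le_pow_left₀ (by norm_num) (by norm_num) h

theorem an_one (X : Type) [Fintype X] [Nonempty X] (a : X → ℝ) (p : ℕ) (S : ℝ) (hp : 2 ≤ p)
    (ha : ∀ x, 0 ≤ a x) (hs : ∑ x, a x ^ 2 = Fintype.card X * S) (hb : ∀ x, a x ^ 2 ≤ p * S)
    (hS : 0 < S) (h : ∑ x, Real.posLog (a x) ≤ Fintype.card X / (64 * p ^ 2)) :
    S ≤ 13 / 10 := by
  classical
  have hN : (0 : ℝ) < Fintype.card X := by exact_mod_cast Fintype.card_pos
  have hp0 : (2 : ℝ) ≤ p := by exact_mod_cast hp
  have hpp : (0 : ℝ) < p := by linarith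
  set t : ℝ := 1 / (8 * p) with ht
  have ht0 : 0 < t := by positivity
  set Y : Finset X := univ.filter fun x => Real.exp t < a x with hY
  have h1 : (Y.card : ℝ) * t ≤ ∑ x, Real.posLog (a x) := by
    calc (Y.card : ℝ) * t = ∑ _x ∈ Y, t := by rw [Finset.sum_const, nsmul_eq_mul]
      _ ≤ ∑ x ∈ Y, Real.posLog (a x) := by
          refine Finset.sum_le_sum fun x hx => ?_
          have hx' : Real.exp t < a x := (Finset.mem_filter.mp hx).2
          have h3 : t ≤ Real.log (a x) := by
            rw [Real.le_log_iff_exp_le (lt_trans (Real.exp_pos t) hx')]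
            exact hx'.le
          exact h3.trans (le_max_right _ _)
      _ ≤ ∑ x, Real.posLog (a x) :=
          Finset.sum_le_sum_of_subset_of_nonneg (Finset.filter_subset _ _)
            fun x _ _ => Real.posLog_nonneg
  have h2 : (Y.card : ℝ) ≤ Fintype.card X / (8 * p) := by
    have h3 : (Y.card : ℝ) * t ≤ Fintype.card X / (64 * p ^ 2) := h1.trans h
    rw [ht] at h3
    have e1 : (Fintype.card X : ℝ) / (64 * p ^ 2) = Fintype.card X / (8 * p) * (1 / (8 * p)) := by
      field_simp
      norm_num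
    rw [e1] at h3
    exact le_of_mul_le_mul_right h3 (by positivity)
  have h3 : ∑ x, a x ^ 2 ≤ Fintype.card X * Real.exp (2 * t) + Y.card * (p * S) := by
    have e1 : ∀ x, a x ^ 2 ≤ Real.exp (2 * t) + if Real.exp t < a x then p * S else 0 := by
      intro x
      split_ifs with hx
      · have := Real.exp_pos (2 * t)
        linarith [hb x]
      · have h4 : a x ≤ Real.exp t := not_lt.mp hx
        have h5 : a x ^ 2 ≤ Real.exp t ^ 2 := pow_le_pow_left₀ (ha x) h4 2
        have e2 : Real.exp t ^ 2 = Real.exp (2 * t) := by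
          rw [← Real.exp_nat_mul]; norm_num
        linarith
    calc ∑ x, a x ^ 2 ≤ ∑ x, (Real.exp (2 * t) + if Real.exp t < a x then p * S else 0) :=
          Finset.sum_le_sum fun x _ => e1 x
      _ = Fintype.card X * Real.exp (2 * t) + Y.card * (p * S) := by
          rw [Finset.sum_add_distrib, Finset.sum_const, Finset.card_univ, nsmul_eq_mul,
            ← Finset.sum_filter, Finset.sum_const, nsmul_eq_mul]
  have h4 : (Y.card : ℝ) * (p * S) ≤ Fintype.card X * (S / 8) := by
    calc (Y.card : ℝ) * (p * S) ≤ Fintype.card X / (8 * p) * (p * S) :=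
          mul_le_mul_of_nonneg_right h2 (by positivity)
      _ = Fintype.card X * (S / 8) := by
          field_simp
  have h5 : Real.exp (2 * t) ≤ 1.1375 := by
    refine le_trans (Real.exp_le_exp.mpr ?_) exp_eighth
    rw [ht]
    have : 1 / (8 * (p : ℝ)) ≤ 1 / 16 := by
      apply one_div_le_one_div_of_le (by norm_num)
      linarith
    linarith
  rw [hs] at h3
  have h6 : (Fintype.card X : ℝ) * S ≤ Fintype.card X * (1.1375 + S / 8) := by
    calc (Fintype.card X : ℝ) * S ≤ Fintype.card X * Real.exp (2 * t) + Y.card * (p * S) := h3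
      _ ≤ Fintype.card X * 1.1375 + Fintype.card X * (S / 8) :=
          add_le_add (mul_le_mul_of_nonneg_left h5 hN.le) h4
      _ = _ := by ring
  have h7 : S ≤ 1.1375 + S / 8 := le_of_mul_le_mul_left h6 hN
  norm_num at h7
  linarith

theorem an_two (X : Type) [Fintype X] [Nonempty X] (a : X → ℝ) (p : ℕ) (S : ℝ) (hp : 2 ≤ p)
    (ha : ∀ x, 0 ≤ a x) (hs : ∑ x, a x ^ 2 = Fintype.card X * S) (hb : ∀ x, a x ^ 2 ≤ p * S)
    (hS : 0 < S) : Fintype.card X * Real.log S ≤
    Fintype.card X * Real.log 2 + 4 * p * ∑ x, Real.posLog (a x) := by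
  classical
  have hN : (0 : ℝ) < Fintype.card X := by exact_mod_cast Fintype.card_pos
  have hp0 : (2 : ℝ) ≤ p := by exact_mod_cast hp
  have hpp : (0 : ℝ) < p := by linarith
  have hP : 0 ≤ ∑ x, Real.posLog (a x) := Finset.sum_nonneg fun x _ => Real.posLog_nonneg
  rcases le_or_gt S 2 with h | h
  · have h1 : Real.log S ≤ Real.log 2 := Real.log_le_log hS h
    have h2 : (Fintype.card X : ℝ) * Real.log S ≤ Fintype.card X * Real.log 2 :=
      mul_le_mul_of_nonneg_left h1 hN.le
    have h3 : 0 ≤ 4 * (p : ℝ) * ∑ x, Real.posLog (a x) := by positivity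
    linarith
  · set Y : Finset X := univ.filter fun x => S / 2 ≤ a x ^ 2 with hY
    have hL : 0 < Real.log S - Real.log 2 := sub_pos.mpr (Real.log_lt_log (by norm_num) h)
    have h1 : ∑ x, a x ^ 2 ≤ Fintype.card X * (S / 2) + Y.card * (p * S) := by
      have e1 : ∀ x, a x ^ 2 ≤ S / 2 + if S / 2 ≤ a x ^ 2 then p * S else 0 := by
        intro x
        split_ifs with hx
        · linarith [hb x]
        · linarith [not_le.mp hx]
      calc ∑ x, a x ^ 2 ≤ ∑ x, (S / 2 + if S / 2 ≤ a x ^ 2 then p * S else 0) :=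
            Finset.sum_le_sum fun x _ => e1 x
        _ = Fintype.card X * (S / 2) + Y.card * (p * S) := by
            rw [Finset.sum_add_distrib, Finset.sum_const, Finset.card_univ, nsmul_eq_mul,
              ← Finset.sum_filter, Finset.sum_const, nsmul_eq_mul]
    rw [hs] at h1
    have h2 : (Fintype.card X : ℝ) ≤ 2 * p * Y.card := by
      have h3 : (Fintype.card X : ℝ) * S ≤ (2 * p * Y.card) * S := by nlinarith
      exact le_of_mul_le_mul_right h3 hS
    have h3 : (Y.card : ℝ) * ((Real.log S - Real.log 2) / 2) ≤ ∑ x, Real.posLog (a x) := by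
      calc (Y.card : ℝ) * ((Real.log S - Real.log 2) / 2) =
            ∑ _x ∈ Y, (Real.log S - Real.log 2) / 2 := by rw [Finset.sum_const, nsmul_eq_mul]
        _ ≤ ∑ x ∈ Y, Real.posLog (a x) := by
            refine Finset.sum_le_sum fun x hx => ?_
            have hx' : S / 2 ≤ a x ^ 2 := (Finset.mem_filter.mp hx).2
            have h4 : Real.log (S / 2) ≤ Real.log (a x ^ 2) :=
              Real.log_le_log (by positivity) hx'
            rw [Real.log_div (ne_of_gt hS) (by norm_num), Real.log_pow] at h4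
            have h5 : (Real.log S - Real.log 2) / 2 ≤ Real.log (a x) := by
              push_cast at h4
              linarith
            exact h5.trans (le_max_right _ _)
        _ ≤ ∑ x, Real.posLog (a x) :=
            Finset.sum_le_sum_of_subset_of_nonneg (Finset.filter_subset _ _)
              fun x _ _ => Real.posLog_nonneg
    have h4 : (Fintype.card X : ℝ) * (Real.log S - Real.log 2) ≤
        (2 * p * Y.card) * (Real.log S - Real.log 2) :=
      mul_le_mul_of_nonneg_right h2 hL.le
    have h5 : (4 * (p : ℝ)) * ((Y.card : ℝ) * ((Real.log S - Real.log 2) / 2)) ≤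
        4 * p * ∑ x, Real.posLog (a x) := mul_le_mul_of_nonneg_left h3 (by positivity)
    nlinarith

theorem pf_AN : T_AN := fun X _ _ a p S hp ha hs hb hS =>
  ⟨an_one X a p S hp ha hs hb hS, an_two X a p S hp ha hs hb hS⟩

end Pool.Agent.H77.FT
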