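import Pool.Agent.H20.FT.Targets

/-!
# GS: a good element
-/

set_option autoImplicit false

open NumberField Height Finset Pool.Agent.H20.FT

namespace Pool.Agent.H77.FT

theorem log_div_le {m P : ℝ} (hP : 1 ≤ P) (hm : 10 ^ 4 * P ^ 4 ≤ m) :
    Real.log m / m ≤ 1 / (50 * P ^ 2) := by
  have hP0 : 0 < P := by linarith
  have hm0 : 0 < m := lt_of_lt_of_le (by positivity) hm
  have hs : 100 * P ^ 2 ≤ √m := by
    apply Real.le_sqrt_of_sq_le
    have e1 : (100 * P ^ 2) ^ 2 = 10 ^ 4 * P ^ 4 := by ring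
    rw [e1]; exact hm
  have hs0 : 0 < √m := Real.sqrt_pos.mpr hm0
  have h1 : Real.log m ≤ 2 * √m := by
    have e1 : Real.log m = 2 * Real.log √m := by
      rw [Real.log_sqrt hm0.le]; ring
    have h2 := Real.log_le_sub_one_of_pos hs0
    rw [e1]; linarith
  have h2 : Real.log m / m ≤ 2 / √m := by
    rw [div_le_div_iff₀ hm0 hs0]
    have e1 : √m * √m = m := Real.mul_self_sqrt hm0.le
    nlinarith
  refine h2.trans ?_
  rw [div_le_div_iff₀ hs0 (by positivity)]
  nlinarith

theorem Li_root_nonneg (h1 : T_LI) (F H : Type) [Field F] [NumberField F] [Group H] [Fintype H]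
    (χ : H →* Fˣ) (σ : H) (h : χ σ ≠ 1) : 0 ≤ Li (1 - (χ σ : F)) := by
  obtain ⟨-, -, h3, -, -⟩ := h1 F
  refine h3 _ ?_ ?_
  · refine isIntegral_one.sub ?_
    refine IsIntegral.of_pow (n := Fintype.card H) Fintype.card_pos ?_
    have : ((χ σ : Fˣ) : F) ^ Fintype.card H = 1 := by
      rw [← Units.val_pow_eq_pow_val, ← map_pow, pow_card_eq_one, map_one, Units.val_one]
    rw [this]
    exact isIntegral_one
  · intro h0
    apply h
    ext
    rw [Units.val_one]
    exact (sub_eq_zero.mp h0).symm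

theorem ker_card (F H : Type) [Field F] [Group H] [Fintype H] (χ : H →* Fˣ)
    [DecidablePred fun σ : H => χ σ = 1] :
    (univ.filter fun σ : H => χ σ = 1).card * Nat.card χ.range = Fintype.card H := by
  have h1 : Nat.card χ.ker * χ.ker.index = Nat.card H := χ.ker.card_mul_index
  rw [Subgroup.index_ker, Nat.card_eq_fintype_card (α := H)] at h1
  rw [← h1]
  congr 1
  rw [← Fintype.card_subtype, ← Nat.card_eq_fintype_card]
  exact Nat.card_congr (Equiv.subtypeEquivRight fun σ => by rw [MonoidHom.mem_ker])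

theorem pf_GS (h1 : T_LI) (h2 : T_RU) : T_GS := by
  classical
  intro F H ι _ _ _ _ _ ψ hψ
  by_contra hcon
  push Not at hcon
  set N : ℝ := (Fintype.card H : ℝ) with hN
  have hN0 : 0 < N := by rw [hN]; exact_mod_cast Fintype.card_pos
  set n : ℝ := (Module.finrank ℚ F : ℝ) with hn
  have hn0 : 0 < n := by rw [hn]; exact_mod_cast Module.finrank_pos
  set P : ℝ := (Fintype.card ι : ℝ) with hP
  -- the good elements
  set Gd : Finset H := univ.filter fun σ => ∀ i j, i ≠ j → ψ i σ ≠ ψ j σ with hGd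
  have hmemG : ∀ σ, σ ∈ Gd ↔ ∀ i j, i ≠ j → ψ i σ ≠ ψ j σ := fun σ => by
    rw [hGd, Finset.mem_filter]
    exact ⟨fun h => h.2, fun h => ⟨Finset.mem_univ _, h⟩⟩
  -- facts for a pair
  have hm : ∀ i j, i ≠ j → 1 ≤ P ∧ 10 ^ 4 * P ^ 4 ≤ (Nat.card (ψ i / ψ j).range : ℝ) := by
    intro i j hij
    have hne : Nonempty ι := ⟨i⟩
    refine ⟨?_, ?_⟩
    · rw [hP]; exact_mod_cast Fintype.card_pos
    · have := hψ i j hij
      rw [hP]
      exact_mod_cast this
  have hA : ∀ i j, i ≠ j → ∑ σ ∈ Gd, Li (1 - (ψ i σ : F) / (ψ j σ : F)) ≤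
      N * n * (1 / (50 * P ^ 2)) := by
    intro i j hij
    obtain ⟨hP1, hmm⟩ := hm i j hij
    have hval : ∀ σ, (ψ i σ : F) / (ψ j σ : F) = ((ψ i / ψ j) σ : F) := by
      intro σ
      rw [MonoidHom.div_apply, Units.val_div_eq_div_val]
    have hru := h2 F H (ψ i / ψ j)
    calc ∑ σ ∈ Gd, Li (1 - (ψ i σ : F) / (ψ j σ : F)) =
          ∑ σ ∈ Gd, Li (1 - ((ψ i / ψ j) σ : F)) :=
          Finset.sum_congr rfl fun σ _ => by rw [hval σ]
      _ ≤ ∑ σ ∈ univ.filter (fun σ => (ψ i / ψ j) σ ≠ 1), Li (1 - ((ψ i / ψ j) σ : F)) := by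
          refine Finset.sum_le_sum_of_subset_of_nonneg (fun σ hσ => ?_) fun σ hσ _ => ?_
          · refine Finset.mem_filter.mpr ⟨Finset.mem_univ _, ?_⟩
            have := (Finset.mem_filter.mp hσ).2 i j hij
            rw [MonoidHom.div_apply]
            intro h0
            exact this (div_eq_one.mp h0)
          · exact Li_root_nonneg h1 F H _ σ (Finset.mem_filter.mp hσ).2
      _ = N * n * (Real.log (Nat.card (ψ i / ψ j).range) / Nat.card (ψ i / ψ j).range) := by
          rw [hru]; ring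
      _ ≤ N * n * (1 / (50 * P ^ 2)) :=
          mul_le_mul_of_nonneg_left (log_div_le hP1 hmm) (by positivity)
  -- the sum over the good elements
  have hS : ∑ σ ∈ Gd, ∑ i, ∑ j ∈ univ.erase i, Li (1 - (ψ i σ : F) / (ψ j σ : F)) ≤
      N * n / 50 := by
    rcases isEmpty_or_nonempty ι with he | hne
    · simp
      positivity
    have hP0 : 0 < P := by rw [hP]; exact_mod_cast Fintype.card_pos
    rw [Finset.sum_comm]
    calc ∑ i, ∑ σ ∈ Gd, ∑ j ∈ univ.erase i, Li (1 - (ψ i σ : F) / (ψ j σ : F)) ≤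
          ∑ _i : ι, P * (N * n * (1 / (50 * P ^ 2))) := by
          refine Finset.sum_le_sum fun i _ => ?_
          rw [Finset.sum_comm]
          calc ∑ j ∈ univ.erase i, ∑ σ ∈ Gd, Li (1 - (ψ i σ : F) / (ψ j σ : F)) ≤
                ∑ _j ∈ univ.erase i, N * n * (1 / (50 * P ^ 2)) :=
                Finset.sum_le_sum fun j hj => hA i j (Finset.ne_of_mem_erase hj).symm
            _ = ((univ.erase i).card : ℝ) * (N * n * (1 / (50 * P ^ 2))) := by
                rw [Finset.sum_const, nsmul_eq_mul]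
            _ ≤ P * (N * n * (1 / (50 * P ^ 2))) := by
                refine mul_le_mul_of_nonneg_right ?_ (by positivity)
                rw [hP]
                exact_mod_cast Finset.card_le_univ _
      _ = P * (P * (N * n * (1 / (50 * P ^ 2)))) := by
          rw [Finset.sum_const, nsmul_eq_mul, Finset.card_univ]
      _ = N * n / 50 := by
          field_simp
  -- the number of bad elements
  have hB : N - N / 10 ^ 4 ≤ Gd.card := by
    rcases isEmpty_or_nonempty ι with he | hne
    · have : Gd = univ := by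
        exact Finset.eq_univ_iff_forall.mpr fun σ =>
          (hmemG σ).mpr fun i => (he.false i).elim
      rw [this, Finset.card_univ, ← hN]
      have : 0 ≤ N / 10 ^ 4 := by positivity
      linarith
    have hP1 : 1 ≤ P := by rw [hP]; exact_mod_cast Fintype.card_pos
    have hk : ∀ i j, i ≠ j → ((univ.filter fun σ : H => (ψ i / ψ j) σ = 1).card : ℝ) ≤
        N * (1 / (10 ^ 4 * P ^ 4)) := by
      intro i j hij
      obtain ⟨-, hmm⟩ := hm i j hij
      have h3 := ker_card F H (ψ i / ψ j)
      have h4 : ((univ.filter fun σ : H => (ψ i / ψ j) σ = 1).card : ℝ) *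
          Nat.card (ψ i / ψ j).range = N := by
        rw [hN]; exact_mod_cast h3
      have h5 : ((univ.filter fun σ : H => (ψ i / ψ j) σ = 1).card : ℝ) * (10 ^ 4 * P ^ 4) ≤
          N := by
        rw [← h4]
        exact mul_le_mul_of_nonneg_left hmm (Nat.cast_nonneg _)
      rw [mul_one_div, le_div_iff₀ (by positivity)]
      exact h5
    have hsub : (univ : Finset H) ⊆ Gd ∪ univ.biUnion fun i : ι => (univ.erase i).biUnion
        fun j => univ.filter fun σ : H => (ψ i / ψ j) σ = 1 := by
      intro σ _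
      by_cases hg : ∀ i j, i ≠ j → ψ i σ ≠ ψ j σ
      · exact Finset.mem_union_left _ (Finset.mem_filter.mpr ⟨Finset.mem_univ _, hg⟩)
      · push Not at hg
        obtain ⟨i, j, hij, he⟩ := hg
        refine Finset.mem_union_right _ (Finset.mem_biUnion.mpr ⟨i, Finset.mem_univ _,
          Finset.mem_biUnion.mpr ⟨j, Finset.mem_erase.mpr ⟨hij.symm, Finset.mem_univ _⟩,
            Finset.mem_filter.mpr ⟨Finset.mem_univ _, ?_⟩⟩⟩)
        rw [MonoidHom.div_apply, he, div_self']
    have hcard : N ≤ Gd.card + ∑ i : ι, ∑ j ∈ univ.erase i,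
        ((univ.filter fun σ : H => (ψ i / ψ j) σ = 1).card : ℝ) := by
      have h3 := Finset.card_le_card hsub
      have h4 := h3.trans (Finset.card_union_le _ _)
      have h5 : (univ.biUnion fun i : ι => (univ.erase i).biUnion
          fun j => univ.filter fun σ : H => (ψ i / ψ j) σ = 1).card ≤
          ∑ i : ι, ∑ j ∈ univ.erase i, (univ.filter fun σ : H => (ψ i / ψ j) σ = 1).card :=
        Finset.card_biUnion_le.trans (Finset.sum_le_sum fun i _ => Finset.card_biUnion_le)
      have h6 := h4.trans (Nat.add_le_add_left h5 _)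
      rw [Finset.card_univ] at h6
      rw [hN]
      exact_mod_cast h6
    have hsum : ∑ i : ι, ∑ j ∈ univ.erase i,
        ((univ.filter fun σ : H => (ψ i / ψ j) σ = 1).card : ℝ) ≤ N / 10 ^ 4 := by
      calc ∑ i : ι, ∑ j ∈ univ.erase i,
            ((univ.filter fun σ : H => (ψ i / ψ j) σ = 1).card : ℝ) ≤
            ∑ _i : ι, P * (N * (1 / (10 ^ 4 * P ^ 4))) := by
            refine Finset.sum_le_sum fun i _ => ?_
            calc ∑ j ∈ univ.erase i,
                  ((univ.filter fun σ : H => (ψ i / ψ j) σ = 1).card : ℝ) ≤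
                  ∑ _j ∈ univ.erase i, N * (1 / (10 ^ 4 * P ^ 4)) :=
                  Finset.sum_le_sum fun j hj => hk i j (Finset.ne_of_mem_erase hj).symm
              _ = ((univ.erase i).card : ℝ) * (N * (1 / (10 ^ 4 * P ^ 4))) := by
                  rw [Finset.sum_const, nsmul_eq_mul]
              _ ≤ P * (N * (1 / (10 ^ 4 * P ^ 4))) := by
                  refine mul_le_mul_of_nonneg_right ?_ (by positivity)
                  rw [hP]
                  exact_mod_cast Finset.card_le_univ _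
        _ = P * (P * (N * (1 / (10 ^ 4 * P ^ 4)))) := by
            rw [Finset.sum_const, nsmul_eq_mul, Finset.card_univ]
        _ = N / 10 ^ 4 * (1 / P ^ 2) := by
            field_simp
        _ ≤ N / 10 ^ 4 * 1 := by
            refine mul_le_mul_of_nonneg_left ?_ (by positivity)
            rw [div_le_one (by positivity)]
            nlinarith
        _ = N / 10 ^ 4 := mul_one _
    linarith
  -- the contradiction
  have hC : (Gd.card : ℝ) * (n / 30) ≤
      ∑ σ ∈ Gd, ∑ i, ∑ j ∈ univ.erase i, Li (1 - (ψ i σ : F) / (ψ j σ : F)) := by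
    calc (Gd.card : ℝ) * (n / 30) = ∑ _σ ∈ Gd, n / 30 := by rw [Finset.sum_const, nsmul_eq_mul]
      _ ≤ _ := Finset.sum_le_sum fun σ hσ => (hcon σ (Finset.mem_filter.mp hσ).2).le
  have hD : (N - N / 10 ^ 4) * (n / 30) ≤ N * n / 50 :=
    (mul_le_mul_of_nonneg_right hB (by positivity)).trans (hC.trans hS)
  have hE : 0 < N * n := by positivity
  nlinarith

end Pool.Agent.H77.FT
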